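import Pool.Agent.Lib.MP_5eb18a_lc.Final

/-!
# Q2: universe independence of injectivity is not provable in HoTT

`Der N Γ a b A` is the judgment `Γ ⊢ a ≡ b : A` of homotopy type theory with `N` cumulative
univalent universes, and `Q2 i j k` is the closed type saying that, for all rings `R` and
`R`-modules `M` in `U_i`, `M` is `U_j`-injective if and only if it is `U_k`-injective
(both are defined in `Pool/Agent/Lib/MP_5eb18a_lc/Theory.lean`).

The proof builds a model: Reedy fibrant diagrams of simplicial sets over the span `a > c < b`,
in which `U_0` holds the small homotopically constant types (both restrictions `X c → X a`,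
`X c → X b` are trivial fibrations), and the higher universes hold all small types.  The field
with two elements, as a module over itself, is `U_0`-injective but not `U_1`-injective.
-/

namespace Pool.Agent.Results.MP_5eb18a_lc.Injective

open Pool.Agent.Lib.MP_5eb18a_lc

universe u

/-- sanity check: the statement is a well-formed type of the theory -/
theorem wellFormed {N : ℕ∞} (h : 3 ≤ N) : Der N [] (Q2 0 0 1) (Q2 0 0 1) (.univ 2) := q2_wf h

/-- sanity check: the known implication is derivable in the theory -/
theorem easyDirection {N : ℕ∞} (h : 3 ≤ N) : ∃ t, Der N [] t t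
    (AllRing 0 (fun R => AllMod 0 R fun M => Arr' (IsInj 1 R M) (IsInj 0 R M)) 0) := q2_easy h

theorem result (N : ℕ∞) (hN : N ≤ 32 ∨ Inacc.{u} N) : ¬ ∃ t : Tm, Der N [] t t (Q2 0 0 1) :=
  q2_final N hN

end Pool.Agent.Results.MP_5eb18a_lc.Injective
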