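import Pool.Agent.Lib.MP_5eb18a_lc.Final

/-!
# Q1: universe independence of projectivity is not provable in HoTT

`Der N Γ a b A` is the judgment `Γ ⊢ a ≡ b : A` of homotopy type theory with `N` cumulative
univalent universes, and `Q1 i j k` is the closed type saying that, for all rings `R` and
`R`-modules `M` in `U_i`, `M` is `U_j`-projective if and only if it is `U_k`-projective
(both are defined in `Pool/Agent/Lib/MP_5eb18a_lc/Theory.lean`).

The proof builds a model: Reedy fibrant diagrams of simplicial sets over the commutative square
`c < a, b < d`, in which `U_0` holds the small types whose restrictions `X a → X d`, `X b → X d`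
are trivial fibrations, and the higher universes hold all small types.  The module over the field
with two elements that vanishes at `c` and is the field elsewhere is `U_0`-projective but not
`U_1`-projective.
-/

namespace Pool.Agent.Results.MP_5eb18a_lc.Projective

open Pool.Agent.Lib.MP_5eb18a_lc

universe u

/-- sanity check: the statement is a well-formed type of the theory -/
theorem wellFormed {N : ℕ∞} (h : 3 ≤ N) : Der N [] (Q1 0 0 1) (Q1 0 0 1) (.univ 2) := q1_wf h

/-- sanity check: the known implication is derivable in the theory -/
theorem easyDirection {N : ℕ∞} (h : 3 ≤ N) : ∃ t, Der N [] t t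
    (AllRing 0 (fun R => AllMod 0 R fun M => Arr' (IsProj 1 R M) (IsProj 0 R M)) 0) := q1_easy h

theorem result (N : ℕ∞) (hN : N ≤ 32 ∨ Inacc.{u} N) : ¬ ∃ t : Tm, Der N [] t t (Q1 0 0 1) :=
  q1_final N hN

end Pool.Agent.Results.MP_5eb18a_lc.Projective
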